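import Pool.Agent.H438.QT.Lim
import Pool.Graph.R_seed8.R419.ST.Main

/-!
# Two-power descent over a field over which `E` has finitely many points and no two-primary part of
# the Tate-Shafarevich group
-/

set_option autoImplicit false
set_option linter.all false

open IsDedekindDomain NumberField WeierstrassCurve MvPolynomial

namespace Pool.Agent.H438.QT

open Pool.Agent.TH954 Pool.Agent.R419.ST

open scoped Classical

section

variable {K : Type} [Field K] [NumberField K] {E : WeierstrassCurve K}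

/-- **Selmer classes of two-power order come from rational points.** -/
theorem coc_two (k : ℕ) (hsha : ∀ s : Pool.Agent.TH841.NF.D.Sha E, 2 ^ k • s = 0 → s = 0)
    (ξ : (AlgebraicClosure K ≃ₐ[K] AlgebraicClosure K) → AlgPt E K) (hξ : IsCocycle E ξ)
    (hk : ∀ σ, 2 ^ k • ξ σ = 0)
    (hv : ∀ v : HeightOneSpectrum (𝓞 K), TrivialOver E ξ (v.adicCompletion K))
    (hw : ∀ w : InfinitePlace K, TrivialOver E ξ w.Completion) :
    ∃ (R : AlgPt E K) (y : (E.baseChange K).toAffine.Point), incl E K y = 2 ^ k • R ∧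
      ∀ σ, ξ σ = act E σ R - R := by
  have hcoc : Pool.Agent.TH841.NF.D.IsShaCoc E ξ :=
    ⟨coc_of hξ, fun v => loc_of hξ (hv v), fun w => loc_of hξ (hw w)⟩
  let x : Pool.Agent.TH841.NF.D.shaCoc E := ⟨ξ, hcoc⟩
  have hx0 : 2 ^ k • x = 0 := by
    apply Subtype.ext
    funext σ
    exact hk σ
  let q : Pool.Agent.TH841.NF.D.shaCoc E →+ Pool.Agent.TH841.NF.D.Sha E :=
    QuotientAddGroup.mk' ((Pool.Agent.TH841.SH.D.cob E).addSubgroupOf
      (Pool.Agent.TH841.NF.D.shaCoc E))
  have hq : q x = 0 := by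
    refine hsha _ ?_
    rw [← map_nsmul, hx0, map_zero]
  have hq' : x ∈ (Pool.Agent.TH841.SH.D.cob E).addSubgroupOf (Pool.Agent.TH841.NF.D.shaCoc E) :=
    (QuotientAddGroup.eq_zero_iff x).1 hq
  have hcob : Pool.Agent.TH841.SH.D.IsCob E ξ := hq'
  obtain ⟨R, hR'⟩ : ∃ R : AlgPt E K, ∀ σ, ξ σ = act E σ R - R := hcob
  obtain ⟨y, hy⟩ : ∃ y : (E.baseChange K).toAffine.Point, incl E K y = 2 ^ k • R := by
    refine exists_of_fixed (L := K) (2 ^ k • R) fun σ => ?_
    have e1 : act E σ R = R + ξ σ := by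
      rw [hR' σ]
      abel
    rw [act_nsmul, e1, ns_add, hk, add_zero]
  exact ⟨R, y, hy, hR'⟩

/-- a point over `L` which lifts to the covering of `ξ` differs from the rational point belonging to `ξ`
by a point divisible by `2 ^ k` -/
theorem shift_two {k : ℕ} {ξ : (AlgebraicClosure K ≃ₐ[K] AlgebraicClosure K) → AlgPt E K}
    {R : AlgPt E K} {y : (E.baseChange K).toAffine.Point} (hy : incl E K y = 2 ^ k • R)
    (hR : ∀ σ, ξ σ = act E σ R - R) {L : Type} [Field L] [CharZero L] [Algebra K L]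
    (ι : AlgebraicClosure K →ₐ[K] AlgebraicClosure L) {P : (E.baseChange L).toAffine.Point}
    {Q : AlgPt E L} (hPQ : 2 ^ k • Q = incl E L P)
    (hQ : ∀ σ τ, Compat ι σ τ → pm E ι (ξ τ) = act E σ Q - Q) :
    ∃ z : (E.baseChange L).toAffine.Point, P = pm E (Algebra.ofId K L) y + 2 ^ k • z := by
  have hfix : ∀ σ : AlgebraicClosure L ≃ₐ[L] AlgebraicClosure L, act E σ (Q - pm E ι R) =
      Q - pm E ι R := by
    intro σ
    obtain ⟨τ, hτ⟩ := exists_compat ι σ
    have e1 : act E σ Q = Q + pm E ι (ξ τ) := by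
      rw [hQ σ τ hτ]
      abel
    have e2 : act E τ R = R + ξ τ := by
      rw [hR τ]
      abel
    rw [act_sub, act_pm ι hτ, e1, e2, map_add]
    abel
  obtain ⟨z, hz⟩ := exists_of_fixed _ hfix
  refine ⟨z, incl_injective ?_⟩
  have e3 : pm E ι (2 ^ k • R) = 2 ^ k • pm E ι R := map_nsmul _ _ _
  have e4 : incl E L (pm E (Algebra.ofId K L) y) = pm E ι (incl E K y) := by
    unfold incl
    rw [pm_pm, pm_pm]
    congr 2
    apply AlgHom.ext
    intro z
    exact (((IsScalarTower.toAlgHom K L (AlgebraicClosure L)).comp (Algebra.ofId K L)).commutes z).trans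
      ((ι.comp (IsScalarTower.toAlgHom K K (AlgebraicClosure K))).commutes z).symm
  have e5 : incl E L (pm E (Algebra.ofId K L) y + 2 ^ k • z) =
      incl E L (pm E (Algebra.ofId K L) y) + incl E L (2 ^ k • z) := map_add (pm E _) _ _
  rw [e5, incl_nsmul, hz, ns_sub, hPQ, ← e3, e4, hy]
  abel

end

section general

variable {K : Type} [Field K] [NumberField K] {n : ℕ}

/-- The adelic point with the components `P v` at the finite places and `P' w` at the infinite places
lifts to the `N`-covering of `E_1 × … × E_n` given by some cocycles with values in the points of order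
dividing `N`. -/
def Lifts (E : Fin n → WeierstrassCurve K) (N : ℕ)
    (P : (v : HeightOneSpectrum (𝓞 K)) → (i : Fin n) →
      ((E i).baseChange (v.adicCompletion K)).toAffine.Point)
    (P' : (w : InfinitePlace K) → (i : Fin n) → ((E i).baseChange w.Completion).toAffine.Point) :
    Prop :=
  ∃ ξ : (i : Fin n) → (AlgebraicClosure K ≃ₐ[K] AlgebraicClosure K) → AlgPt (E i) K,
    (∀ i, IsCocycle (E i) (ξ i)) ∧ (∀ i σ, N • ξ i σ = 0) ∧
    (∀ v, CovAt E N ξ (v.adicCompletion K) (P v)) ∧ ∀ w, CovAt E N ξ w.Completion (P' w)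

theorem lev_two (E : Fin n → WeierstrassCurve K)
    (hsha : ∀ i, ∀ s : Pool.Agent.TH841.NF.D.Sha (E i), 2 • s = 0 → s = 0)
    (P : (v : HeightOneSpectrum (𝓞 K)) → (i : Fin n) →
      ((E i).baseChange (v.adicCompletion K)).toAffine.Point)
    (P' : (w : InfinitePlace K) → (i : Fin n) → ((E i).baseChange w.Completion).toAffine.Point)
    (k : ℕ) (h : Lifts E (2 ^ k) P P') :
    ∃ y : (i : Fin n) → ((E i).baseChange K).toAffine.Point,
      (∀ v i, ∃ z, P v i = pm (E i) (Algebra.ofId K (v.adicCompletion K)) (y i) + 2 ^ k • z) ∧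
      ∀ w i, ∃ z, P' w i = pm (E i) (Algebra.ofId K w.Completion) (y i) + 2 ^ k • z := by
  have hshak : ∀ (i : Fin n) (j : ℕ) (x : Pool.Agent.TH841.NF.D.Sha (E i)), 2 ^ j • x = 0 → x = 0 := by
    intro i j
    induction j with
    | zero => intro x hx; rw [pow_zero, one_nsmul] at hx; exact hx
    | succ j ih =>
      intro x hx
      rw [pow_succ, mul_nsmul] at hx
      exact ih x (hsha i _ hx)
  obtain ⟨ξ, h1, h2, h3, h4⟩ := h
  have hT : ∀ i, ∃ (R : AlgPt (E i) K) (y : ((E i).baseChange K).toAffine.Point),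
      incl (E i) K y = 2 ^ k • R ∧ ∀ σ, ξ i σ = act (E i) σ R - R := by
    intro i
    refine coc_two k (hshak i k) (ξ i) (h1 i) (h2 i) (fun u => ?_) (fun w => ?_)
    · obtain ⟨ι, Q, -, h⟩ := h3 u
      exact ⟨ι, Q i, fun σ τ hστ => h i σ τ hστ⟩
    · obtain ⟨ι, Q, -, h⟩ := h4 w
      exact ⟨ι, Q i, fun σ τ hστ => h i σ τ hστ⟩
  choose R y hy hR using hT
  refine ⟨y, fun v i => ?_, fun w i => ?_⟩
  · have : CharZero (v.adicCompletion K) :=
      charZero_of_injective_algebraMap (algebraMap K (v.adicCompletion K)).injective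
    obtain ⟨ι, Q, hPQ, hQ⟩ := h3 v
    exact shift_two (hy i) (hR i) ι (hPQ i) fun σ τ hστ => hQ i σ τ hστ
  · have : CharZero w.Completion :=
      charZero_of_injective_algebraMap (algebraMap K w.Completion).injective
    obtain ⟨ι, Q, hPQ, hQ⟩ := h4 w
    exact shift_two (hy i) (hR i) ι (hPQ i) fun σ τ hστ => hQ i σ τ hστ

theorem adel_two (E : Fin n → WeierstrassCurve K)
    (hsha : ∀ i, ∀ s : Pool.Agent.TH841.NF.D.Sha (E i), 2 • s = 0 → s = 0)
    (hfin : ∀ i, Finite ((E i).baseChange K).toAffine.Point)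
    (P : (v : HeightOneSpectrum (𝓞 K)) → (i : Fin n) →
      ((E i).baseChange (v.adicCompletion K)).toAffine.Point)
    (P' : (w : InfinitePlace K) → (i : Fin n) → ((E i).baseChange w.Completion).toAffine.Point)
    (h : ∀ k, Lifts E (2 ^ k) P P') :
    ∃ y : (i : Fin n) → ((E i).baseChange K).toAffine.Point,
      (∀ v i (k : ℕ), ∃ z,
        P v i = pm (E i) (Algebra.ofId K (v.adicCompletion K)) (y i) + 2 ^ k • z) ∧
      ∀ w i (k : ℕ), ∃ z, P' w i = pm (E i) (Algebra.ofId K w.Completion) (y i) + 2 ^ k • z := by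
  have key := fun k => lev_two E hsha P P' k (h k)
  choose y hy using key
  obtain ⟨y₀, hy₀⟩ : ∃ y₀, ∀ k, ∃ k' ≥ k, y k' = y₀ := by
    obtain ⟨y₀, h⟩ := Finite.exists_infinite_fiber y
    refine ⟨y₀, fun k => ?_⟩
    have h2 : (y ⁻¹' {y₀}).Infinite := Set.infinite_coe_iff.1 h
    obtain ⟨k', h3, h4⟩ := h2.exists_gt k
    exact ⟨k', h4.le, h3⟩
  refine ⟨y₀, fun v i k => ?_, fun w i k => ?_⟩
  · obtain ⟨k', hk, hyk⟩ := hy₀ k
    obtain ⟨z, hz⟩ := (hy k').1 v i
    refine ⟨2 ^ (k' - k) • z, ?_⟩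
    rw [← mul_smul, ← pow_add, Nat.add_sub_cancel' hk, ← hyk]
    exact hz
  · obtain ⟨k', hk, hyk⟩ := hy₀ k
    obtain ⟨z, hz⟩ := (hy k').2 w i
    refine ⟨2 ^ (k' - k) • z, ?_⟩
    rw [← mul_smul, ← pow_add, Nat.add_sub_cancel' hk, ← hyk]
    exact hz

end general

end Pool.Agent.H438.QT
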