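import Pool.Agent.H438.QT.Loc

/-!
# Limits of points over the 2-adic numbers
-/

set_option autoImplicit false
set_option linter.all false

open WeierstrassCurve Filter Topology MvPolynomial

namespace Pool.Agent.H438.QT

open Pool.Agent.TH954 Pool.Agent.R425.D

open scoped Classical

lemma disc_crv {D : ℕ} (hD : D ≠ 0) :
    4 * (crv ℚ_[2] D).a₄ ^ 3 + 27 * (crv ℚ_[2] D).a₆ ^ 2 ≠ 0 := by
  have e : 4 * (crv ℚ_[2] D).a₄ ^ 3 + 27 * (crv ℚ_[2] D).a₆ ^ 2 =
      46664771328 * (D : ℚ_[2]) ^ 6 := by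
    show 4 * (-2835 * (D : ℚ_[2]) ^ 2) ^ 3 + 27 * (-71442 * (D : ℚ_[2]) ^ 3) ^ 2 = _
    ring
  rw [e]
  exact mul_ne_zero (by norm_num) (pow_ne_zero _ (by exact_mod_cast hD))

lemma ms_sub {G : Type} [AddCommGroup G] (m : ℕ) (a b c : G) :
    m • (a - b) = m • (c - b) - m • (c - a) := by
  rw [smul_sub, smul_sub, smul_sub]; abel

/-- **Limits.** -/
theorem lim_two {n : ℕ} (D : Fin n → ℕ) (hD : ∀ i, Odd (D i))
    (S : Set (MvPolynomial (Fin n × Fin 3) ℚ_[2])) (hS : ∀ f ∈ S, ∃ d, MultiHom d f)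
    (Y : Set ((i : Fin n) → (crv ℚ_[2] (D i)).toAffine.Point)) (hY : Y.Finite)
    (h : ∀ k : ℕ, ∃ P : (i : Fin n) → (crv ℚ_[2] (D i)).toAffine.Point,
      (∀ f ∈ S, eval (fun p => crd (P p.1) p.2) f = 0) ∧
        ∃ y ∈ Y, ∀ i, ∃ z, P i = y i + 2 ^ k • z) :
    ∃ y ∈ Y, ∀ f ∈ S, eval (fun p => crd (y p.1) p.2) f = 0 := by
  have h2 := norm_two'
  have h20 : (2 : ℚ_[2]) ≠ 0 := by norm_num
  have hV : ∀ i, SI (crv ℚ_[2] (D i)) := fun i => si_crv (D i)
  have hDD : ∀ i, 4 * (crv ℚ_[2] (D i)).a₄ ^ 3 + 27 * (crv ℚ_[2] (D i)).a₆ ^ 2 ≠ 0 :=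
    fun i => disc_crv (hD i).pos.ne'
  choose P hPS y hyY Q hQ using h
  obtain ⟨y₀, hy₀Y, hy₀⟩ : ∃ y₀ ∈ Y, ∀ᶠ k in (hyperfilter ℕ : Filter ℕ), y k = y₀ := by
    have h1 : ∀ᶠ k in (hyperfilter ℕ : Filter ℕ), y k ∈ Y := Filter.Eventually.of_forall hyY
    have h2 : (⋃ y₀ ∈ Y, {k | y k = y₀}) ∈ (hyperfilter ℕ : Filter ℕ) := by
      filter_upwards [h1] with k hk
      exact Set.mem_biUnion hk rfl
    obtain ⟨y₀, h3, h4⟩ := (Ultrafilter.finite_biUnion_mem_iff hY).1 h2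
    exact ⟨y₀, h3, h4⟩
  have hexp : ∀ i, ∃ N : ℕ, 0 < N ∧ ∀ T : (crv ℚ_[2] (D i)).toAffine.Point, Big 2 (N • T) :=
    fun i => exists_expo' (hV i) (hDD i) h20 2 (by norm_num)
  choose N hN0 hN using hexp
  have hlim : ∀ i, ∃ Pi : (crv ℚ_[2] (D i)).toAffine.Point, ∀ j,
      Tendsto (fun k => nc (P k i) j) (hyperfilter ℕ) (𝓝 (nc Pi j)) := fun i =>
    lim_point (hV i) (hDD i) h20 (hyperfilter ℕ) (fun k => P k i)
  choose P' hP' using hlim
  have hon : ∀ f ∈ S, eval (fun p => crd (P' p.1) p.2) f = 0 := by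
    intro f hf
    obtain ⟨d, hd⟩ := hS f hf
    rw [eval_nc hV hd]
    have h1 : Tendsto (fun k => eval (fun p : Fin n × Fin 3 => nc (P k p.1) p.2) f) (hyperfilter ℕ)
        (𝓝 (eval (fun p => nc (P' p.1) p.2) f)) := by
      have hcont : Continuous fun u : Fin n × Fin 3 → ℚ_[2] => eval u f :=
        MvPolynomial.continuous_eval f
      refine (hcont.tendsto _).comp ?_
      rw [tendsto_pi_nhds]
      intro p
      exact hP' p.1 p.2
    refine tendsto_nhds_unique h1 (tendsto_const_nhds.congr fun k => ?_)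
    exact ((eval_nc hV hd (P k)).1 (hPS k f hf)).symm
  have hz : ∀ i, P' i = y₀ i := by
    intro i
    obtain ⟨a, m, hm, hNam⟩ := Nat.exists_eq_two_pow_mul_odd (hN0 i).ne'
    rw [← sub_eq_zero]
    refine zero_of_odd (hD i) hm (zero_of_big fun R hR => ?_)
    obtain ⟨d, hd0, -, hd⟩ := (hV i).exists_near h20 (hDD i) hR
    have h1 : ∀ᶠ k in (hyperfilter ℕ : Filter ℕ), ∀ j, ‖nc (P k i) j - nc (P' i) j‖ < d := by
      rw [eventually_all]
      intro j
      have := (hP' i j).sub (tendsto_const_nhds (x := nc (P' i) j))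
      rw [sub_self] at this
      have h3 := this.norm
      rw [norm_zero] at h3
      exact h3.eventually_lt_const hd0
    obtain ⟨r, hr⟩ := pow_unbounded_of_one_lt R (by norm_num : (1 : ℝ) < 4)
    have hge : ∀ᶠ k in (hyperfilter ℕ : Filter ℕ), a + r ≤ k := by
      have hle : (hyperfilter ℕ : Filter ℕ) ≤ cofinite := hyperfilter_le_cofinite
      rw [Nat.cofinite_eq_atTop] at hle
      exact hle (eventually_ge_atTop (a + r))
    obtain ⟨k, hk1, hk2, hk3⟩ := (h1.and (hge.and hy₀)).exists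
    have h3 : Big R (m • (P k i - P' i)) := (hV i).big_nsmul h20 hR (hd _ _ hk1) m
    have h4 : Big R (m • (P k i - y₀ i)) := by
      obtain ⟨t, rfl⟩ := Nat.exists_eq_add_of_le hk2
      have e : m • (P (a + r + t) i - y₀ i) = 2 ^ (r + t) • (N i • Q (a + r + t) i) := by
        have e1 : P (a + r + t) i - y₀ i = 2 ^ (a + r + t) • Q (a + r + t) i := by
          rw [← hk3]
          nth_rewrite 1 [hQ (a + r + t) i]
          abel
        rw [e1, hNam, ← mul_smul, ← mul_smul]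
        congr 1
        rw [pow_add, pow_add, pow_add]
        ring
      rw [e]
      have h5 := big_pow (hV i) h2 (by norm_num : (1 : ℝ) < 2) (hN i (Q (a + r + t) i)) (r + t)
      refine big_mono ?_ h5
      have h6 : (4 : ℝ) ^ r ≤ 4 ^ (r + t) := pow_le_pow_right₀ (by norm_num) (by omega)
      have h7 : (0 : ℝ) < 4 ^ (r + t) := by positivity
      linarith
    rw [ms_sub m (P' i) (y₀ i) (P k i)]
    exact (hV i).big_sub h20 hR h4 h3
  refine ⟨y₀, hy₀Y, fun f hf => ?_⟩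
  have h9 := hon f hf
  simp only [hz] at h9
  exact h9

/-- a point divisible by all powers of two is zero -/
theorem zero_of_div {D : ℕ} (hD : Odd D) {T : (crv ℚ_[2] D).toAffine.Point}
    (h : ∀ k : ℕ, ∃ z, T = 2 ^ k • z) : T = 0 := by
  obtain ⟨m, hm, h1⟩ := odd_of_div (si_crv D) (disc_crv hD.pos.ne') norm_two' T h
  exact zero_of_odd hD hm h1

end Pool.Agent.H438.QT
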