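import Pool.Graph.R_seed8.R425.D.X11

/-!
# The twists of `X_0(49)` over the 2-adic numbers: eight times a point is close to the origin
-/

set_option autoImplicit false
set_option linter.all false

open WeierstrassCurve Filter Topology MvPolynomial

namespace Pool.Agent.H438.QT

open Pool.Agent.TH954 Pool.Agent.R425.D

open scoped Classical

/-- the short equation of the twist by `D` of `X_0(49)` -/
def crv (L : Type) [Field L] (D : ℕ) : WeierstrassCurve L :=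
  ⟨0, 0, 0, -2835 * (D : L) ^ 2, -71442 * (D : L) ^ 3⟩

section two

lemma n_int (m : ℤ) : ‖(m : ℚ_[2])‖ ≤ 1 := Padic.norm_int_le_one m

lemma n_odd {m : ℕ} (h : Odd m) : ‖(m : ℚ_[2])‖ = 1 := by
  rw [Padic.norm_natCast_eq_one_iff]
  exact (Nat.coprime_two_left).2 h

lemma n_2 : ‖(2 : ℚ_[2])‖ = 1 / 2 := norm_two'

lemma n_4 : ‖(4 : ℚ_[2])‖ = 1 / 4 := by
  have e : (4 : ℚ_[2]) = 2 ^ 2 := by norm_num
  rw [e, norm_pow, n_2]; norm_num

lemma n_8 : ‖(8 : ℚ_[2])‖ = 1 / 8 := by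
  have e : (8 : ℚ_[2]) = 2 ^ 3 := by norm_num
  rw [e, norm_pow, n_2]; norm_num

lemma n_3 : ‖(3 : ℚ_[2])‖ = 1 := by
  have := n_odd (m := 3) (by decide)
  exact_mod_cast this

lemma n_9 : ‖(9 : ℚ_[2])‖ = 1 := by
  have := n_odd (m := 9) (by decide)
  exact_mod_cast this

lemma n_36 : ‖(36 : ℚ_[2])‖ = 1 / 4 := by
  have e : (36 : ℚ_[2]) = 4 * 9 := by norm_num
  rw [e, norm_mul, n_4, n_9]; norm_num

/-- the polynomials of the duplication -/
noncomputable def phi (D s : ℚ_[2]) : ℚ_[2] := s ^ 4 + 4 * D ^ 2 * s ^ 2 + 8 * D ^ 3 * s + D ^ 4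

noncomputable def psi (D s : ℚ_[2]) : ℚ_[2] := 4 * s ^ 3 - 3 * D * s ^ 2 - 8 * D ^ 2 * s - 4 * D ^ 3

lemma na {a b : ℚ_[2]} {c : ℝ} (ha : ‖a‖ ≤ c) (hb : ‖b‖ ≤ c) : ‖a + b‖ ≤ c :=
  (IsUltrametricDist.norm_add_le_max a b).trans (max_le ha hb)

lemma ns' {a b : ℚ_[2]} {c : ℝ} (ha : ‖a‖ ≤ c) (hb : ‖b‖ ≤ c) : ‖a - b‖ ≤ c := by
  rw [sub_eq_add_neg]
  exact na ha (by rwa [norm_neg])

variable {D : ℚ_[2]} (hD : ‖D‖ = 1)

include hD

/-- small values -/
lemma dup_small {s t : ℚ_[2]} (hs : ‖s‖ < 1) (h : t * psi D s = phi D s) : 4 ≤ ‖t‖ := by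
  have h1 : ‖s‖ ≤ 1 / 2 := half hs
  have h0 := norm_nonneg s
  have hphi : ‖phi D s‖ = 1 := by
    have e : phi D s = D ^ 4 + (s ^ 4 + 4 * D ^ 2 * s ^ 2 + 8 * D ^ 3 * s) := by
      unfold phi; ring
    have h2 : ‖s ^ 4 + 4 * D ^ 2 * s ^ 2 + 8 * D ^ 3 * s‖ ≤ 1 / 2 := by
      refine na (na ?_ ?_) ?_
      · rw [norm_pow]
        calc ‖s‖ ^ 4 ≤ (1 / 2) ^ 4 := pow_le_pow_left₀ h0 h1 4
          _ ≤ 1 / 2 := by norm_num
      · rw [norm_mul, norm_mul, norm_pow, norm_pow, n_4, hD]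
        nlinarith [pow_le_pow_left₀ h0 h1 2]
      · rw [norm_mul, norm_mul, norm_pow, n_8, hD]
        nlinarith
    rw [e, uadd_eq]
    · rw [norm_pow, hD, one_pow]
    · rw [norm_pow, hD, one_pow]
      linarith
  have hpsi : ‖psi D s‖ ≤ 1 / 4 := by
    unfold psi
    refine ns' (ns' (ns' ?_ ?_) ?_) ?_
    · rw [norm_mul, norm_pow, n_4]
      have := pow_le_pow_left₀ h0 h1 3
      nlinarith [pow_nonneg h0 3]
    · rw [norm_mul, norm_mul, norm_pow, n_3, hD]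
      have := pow_le_pow_left₀ h0 h1 2
      nlinarith
    · rw [norm_mul, norm_mul, norm_pow, n_8, hD]
      nlinarith
    · rw [norm_mul, norm_pow, n_4, hD]
      norm_num
  have h3 := congrArg norm h
  rw [norm_mul, hphi] at h3
  have h4 := norm_nonneg t
  nlinarith [norm_nonneg (psi D s)]

/-- units -/
lemma dup_unit {s t : ℚ_[2]} (hs : ‖s‖ = 1) (h : t * psi D s = phi D s) : ‖t‖ < 1 := by
  have hs1 : ‖s - 1‖ ≤ 1 / 2 := by
    rcases res hs.le with h1 | h1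
    · rw [hs] at h1; norm_num at h1
    · exact h1
  have hD1 : ‖D - 1‖ ≤ 1 / 2 := by
    rcases res hD.le with h1 | h1
    · rw [hD] at h1; norm_num at h1
    · exact h1
  have q4 : ∀ z : ℚ_[2], ‖z‖ = 1 → ‖z - 1‖ ≤ 1 / 2 → ‖z ^ 4 - 1‖ ≤ 1 / 2 := by
    intro z hz hz1
    have e : z ^ 4 - 1 = (z - 1) * (z ^ 3 + z ^ 2 + z + 1) := by ring
    rw [e, norm_mul]
    have h2 : ‖z ^ 3 + z ^ 2 + z + 1‖ ≤ 1 := by
      refine na (na (na ?_ ?_) ?_) ?_
      · rw [norm_pow, hz, one_pow]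
      · rw [norm_pow, hz, one_pow]
      · rw [hz]
      · rw [norm_one]
    nlinarith [norm_nonneg (z - 1), norm_nonneg (z ^ 3 + z ^ 2 + z + 1)]
  have hphi : ‖phi D s‖ ≤ 1 / 2 := by
    have e : phi D s = (s ^ 4 - 1) + (D ^ 4 - 1) + 2 + 4 * D ^ 2 * s ^ 2 + 8 * D ^ 3 * s := by
      unfold phi; ring
    rw [e]
    refine na (na (na (na (q4 s hs hs1) (q4 D hD hD1)) ?_) ?_) ?_
    · rw [n_2]
    · rw [norm_mul, norm_mul, norm_pow, norm_pow, n_4, hD, hs]; norm_num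
    · rw [norm_mul, norm_mul, norm_pow, n_8, hD, hs]; norm_num
  have hpsi : ‖psi D s‖ = 1 := by
    have e : psi D s = -(3 * D * s ^ 2) + (4 * s ^ 3 - 8 * D ^ 2 * s - 4 * D ^ 3) := by
      unfold psi; ring
    have h2 : ‖4 * s ^ 3 - 8 * D ^ 2 * s - 4 * D ^ 3‖ ≤ 1 / 4 := by
      refine ns' (ns' ?_ ?_) ?_
      · rw [norm_mul, norm_pow, n_4, hs]; norm_num
      · rw [norm_mul, norm_mul, norm_pow, n_8, hD, hs]; norm_num
      · rw [norm_mul, norm_pow, n_4, hD]; norm_num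
    have h3 : ‖-(3 * D * s ^ 2)‖ = 1 := by
      rw [norm_neg, norm_mul, norm_mul, norm_pow, n_3, hD, hs]; norm_num
    rw [e, uadd_eq]
    · exact h3
    · rw [h3]; linarith
  have h3 := congrArg norm h
  rw [norm_mul, hpsi, mul_one] at h3
  rw [h3]
  linarith

/-- large values -/
lemma dup_big {s t : ℚ_[2]} (hs : 1 < ‖s‖) (h : t * psi D s = phi D s) :
    4 ≤ ‖t‖ ∧ (4 ≤ ‖s‖ → 16 ≤ ‖t‖) := by
  have hs2 : 2 ≤ ‖s‖ := by
    have h1 : ‖s⁻¹‖ < 1 := by
      rw [norm_inv]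
      exact inv_lt_one_of_one_lt₀ hs
    have h2 := half h1
    rw [norm_inv, inv_le_comm₀ (by linarith) (by norm_num)] at h2
    linarith [h2, (by norm_num : ((1 : ℝ) / 2)⁻¹ = 2)]
  generalize hr : ‖s‖ = r at *
  have hphi : ‖phi D s‖ = r ^ 4 := by
    have e : phi D s = s ^ 4 + (4 * D ^ 2 * s ^ 2 + 8 * D ^ 3 * s + D ^ 4) := by
      unfold phi; ring
    have h2 : ‖4 * D ^ 2 * s ^ 2 + 8 * D ^ 3 * s + D ^ 4‖ ≤ r ^ 3 := by
      refine na (na ?_ ?_) ?_
      · rw [norm_mul, norm_mul, norm_pow, norm_pow, n_4, hD, hr]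
        nlinarith [sq_nonneg r]
      · rw [norm_mul, norm_mul, norm_pow, n_8, hD, hr]
        nlinarith [sq_nonneg r, mul_pos (by linarith : 0 < r) (by linarith : 0 < r)]
      · rw [norm_pow, hD, one_pow]
        exact one_le_pow₀ (by linarith)
    rw [e, uadd_eq]
    · rw [norm_pow, hr]
    · rw [norm_pow, hr]
      refine h2.trans_lt ?_
      have : 0 < r ^ 3 := by positivity
      nlinarith
  have hpsi : ‖psi D s‖ ≤ max (r ^ 3 / 4) (r ^ 2) := by
    unfold psi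
    refine ns' (ns' (ns' ?_ ?_) ?_) ?_
    · rw [norm_mul, norm_pow, n_4, hr]
      exact le_max_of_le_left (by linarith)
    · rw [norm_mul, norm_mul, norm_pow, n_3, hD, hr]
      exact le_max_of_le_right (by linarith)
    · rw [norm_mul, norm_mul, norm_pow, n_8, hD, hr]
      exact le_max_of_le_right (by nlinarith)
    · rw [norm_mul, norm_pow, n_4, hD]
      exact le_max_of_le_right (by nlinarith)
  have h3 := congrArg norm h
  rw [norm_mul, hphi] at h3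
  have ht := norm_nonneg t
  have hp := norm_nonneg (psi D s)
  have h5 : r ^ 4 ≤ ‖t‖ * max (r ^ 3 / 4) (r ^ 2) := by
    rw [← h3]
    exact mul_le_mul_of_nonneg_left hpsi ht
  have r0 : 0 < r := by linarith
  constructor
  · rcases le_total (r ^ 3 / 4) (r ^ 2) with h6 | h6
    · rw [max_eq_right h6] at h5
      have h7 : r ^ 2 ≤ ‖t‖ := by
        have : r ^ 2 * r ^ 2 ≤ ‖t‖ * r ^ 2 := by nlinarith
        exact le_of_mul_le_mul_right this (by positivity)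
      nlinarith
    · rw [max_eq_left h6] at h5
      have h7 : 4 * r ≤ ‖t‖ := by
        have : 4 * r * (r ^ 3 / 4) ≤ ‖t‖ * (r ^ 3 / 4) := by nlinarith
        exact le_of_mul_le_mul_right this (by positivity)
      nlinarith
  · intro h4
    rcases le_total (r ^ 3 / 4) (r ^ 2) with h6 | h6
    · rw [max_eq_right h6] at h5
      have h7 : r ^ 2 ≤ ‖t‖ := by
        have : r ^ 2 * r ^ 2 ≤ ‖t‖ * r ^ 2 := by nlinarith
        exact le_of_mul_le_mul_right this (by positivity)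
      nlinarith
    · rw [max_eq_left h6] at h5
      have h7 : 4 * r ≤ ‖t‖ := by
        have : 4 * r * (r ^ 3 / 4) ≤ ‖t‖ * (r ^ 3 / 4) := by nlinarith
        exact le_of_mul_le_mul_right this (by positivity)
      nlinarith

end two

section dup

lemma grp8 {G : Type} [AddCommGroup G] {T : G} {m : ℕ} (hm : Odd m) (h : m • T = 0)
    (h8 : 2 • (2 • (2 • T)) = 0) : T = 0 := by
  have h8' : (8 : ℕ) • T = 0 := by
    have e : (8 : ℕ) = 2 * (2 * 2) := by norm_num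
    rw [e, mul_smul, mul_smul]
    exact h8
  have hc : IsCoprime ((8 : ℕ) : ℤ) (m : ℤ) := by
    rw [Nat.isCoprime_iff_coprime]
    have h2 : Nat.Coprime 2 m := (Nat.coprime_two_left).2 hm
    exact Nat.Coprime.pow_left 3 h2
  obtain ⟨a, b, hab⟩ := hc
  have e1 : ((8 : ℕ) : ℤ) • T = 0 := by rw [natCast_zsmul, h8']
  have e2 : (m : ℤ) • T = 0 := by rw [natCast_zsmul, h]
  calc T = (a * ((8 : ℕ) : ℤ) + b * m) • T := by rw [hab, one_smul]
    _ = 0 := by rw [add_smul, mul_smul, mul_smul, e1, e2, smul_zero, smul_zero, add_zero]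

lemma si_crv (D : ℕ) : SI (crv ℚ_[2] D) where
  h1 := rfl
  h2 := rfl
  h3 := rfl
  ha := by
    show ‖-2835 * (D : ℚ_[2]) ^ 2‖ ≤ 1
    have := n_int (-2835 * (D : ℤ) ^ 2)
    push_cast at this
    exact this
  hb := by
    show ‖-71442 * (D : ℚ_[2]) ^ 3‖ ≤ 1
    have := n_int (-71442 * (D : ℤ) ^ 3)
    push_cast at this
    exact this

/-- the coordinate on the minimal model -/
noncomputable def sc (D : ℕ) (x : ℚ_[2]) : ℚ_[2] := (x + 9 * D) / 36

/-- duplication -/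
lemma dup {D : ℕ} {x y X Y : ℚ_[2]} {n : (crv ℚ_[2] D).toAffine.Nonsingular x y}
    {n' : (crv ℚ_[2] D).toAffine.Nonsingular X Y}
    (h : 2 • Affine.Point.some x y n = Affine.Point.some X Y n') :
    sc D X * psi D (sc D x) = phi D (sc D x) := by
  rw [two_nsmul] at h
  obtain ⟨-, hy0, hX⟩ := (si_crv D).toShort.add_eq h
  have he := (si_crv D).toShort.eqn n
  have e4 : (crv ℚ_[2] D).a₄ = -2835 * (D : ℚ_[2]) ^ 2 := rfl
  have e6 : (crv ℚ_[2] D).a₆ = -71442 * (D : ℚ_[2]) ^ 3 := rfl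
  rw [e4] at hX
  rw [e4, e6] at he
  obtain ⟨s, hs⟩ : ∃ s, s = sc D x := ⟨_, rfl⟩
  have hx : x = 36 * s - 9 * D := by
    rw [hs]; unfold sc; field_simp; ring
  rw [← hs]
  have hy : y ^ 2 = 11664 * psi D s := by
    rw [he, hx]; unfold psi; ring
  have h1 : 4 * y ^ 2 * X = (3 * x ^ 2 + -2835 * (D : ℚ_[2]) ^ 2) ^ 2 - 8 * x * y ^ 2 := by
    rw [hX]
    field_simp
    ring
  have hX' : X = 36 * sc D X - 9 * D := by
    unfold sc; field_simp; ring
  generalize sc D X = t at *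
  rw [hX', hy, hx] at h1
  have h2 : (1679616 : ℚ_[2]) ≠ 0 := by norm_num
  apply mul_left_cancel₀ h2
  unfold psi at *
  unfold phi
  linear_combination h1

/-- the points with large or small coordinate -/
def Lv (D : ℕ) (r : ℝ) (T : (crv ℚ_[2] D).toAffine.Point) : Prop :=
  ∀ (x y : ℚ_[2]) (h), T = Affine.Point.some x y h → r ≤ ‖sc D x‖

theorem eight {D : ℕ} (hD : Odd D) (T : (crv ℚ_[2] D).toAffine.Point) :
    Big 4 (2 • (2 • (2 • T))) := by
  have hD1 := n_odd hD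
  have z2 : (2 • Affine.Point.zero : (crv ℚ_[2] D).toAffine.Point) = Affine.Point.zero :=
    nsmul_zero (M := (crv ℚ_[2] D).toAffine.Point) 2
  -- the first step
  have s1 : ∀ (x X y Y : ℚ_[2]) (n n'), (2 • Affine.Point.some x y n :
      (crv ℚ_[2] D).toAffine.Point) = Affine.Point.some X Y n' →
      ‖sc D X‖ < 1 ∨ 4 ≤ ‖sc D X‖ := by
    intro x X y Y n n' h
    have h1 := dup h
    rcases lt_trichotomy ‖sc D x‖ 1 with h2 | h2 | h2
    · right; exact dup_small hD1 h2 h1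
    · left; exact dup_unit hD1 h2 h1
    · right; exact (dup_big hD1 h2 h1).1
  have s2 : ∀ (x X y Y : ℚ_[2]) (n n'), (2 • Affine.Point.some x y n :
      (crv ℚ_[2] D).toAffine.Point) = Affine.Point.some X Y n' →
      (‖sc D x‖ < 1 ∨ 4 ≤ ‖sc D x‖) → 4 ≤ ‖sc D X‖ := by
    intro x X y Y n n' h h0
    have h1 := dup h
    rcases h0 with h2 | h2
    · exact dup_small hD1 h2 h1
    · exact (dup_big hD1 (by linarith) h1).1
  have s3 : ∀ (x X y Y : ℚ_[2]) (n n'), (2 • Affine.Point.some x y n :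
      (crv ℚ_[2] D).toAffine.Point) = Affine.Point.some X Y n' →
      4 ≤ ‖sc D x‖ → 16 ≤ ‖sc D X‖ := by
    intro x X y Y n n' h h0
    exact (dup_big hD1 (by linarith) (dup h)).2 h0
  rcases T with _ | ⟨x0, y0, n0⟩
  · rw [z2, z2, z2]
    exact big_zero _
  generalize h1 : 2 • Affine.Point.some x0 y0 n0 = T1
  rcases T1 with _ | ⟨x1, y1, n1⟩
  · rw [z2, z2]
    exact big_zero _
  generalize h2 : 2 • Affine.Point.some x1 y1 n1 = T2
  rcases T2 with _ | ⟨x2, y2, n2⟩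
  · rw [z2]
    exact big_zero _
  generalize h3 : 2 • Affine.Point.some x2 y2 n2 = T3
  rcases T3 with _ | ⟨x3, y3, n3⟩
  · exact big_zero _
  have h4 := s3 _ _ _ _ _ _ h3 (s2 _ _ _ _ _ _ h2 (s1 _ _ _ _ _ _ h1))
  rw [big_some]
  have hx : x3 = 36 * sc D x3 - 9 * D := by
    unfold sc; field_simp; ring
  rw [hx, usub_eq]
  · rw [norm_mul, n_36]; linarith
  · rw [norm_mul, norm_mul, n_36, n_9, hD1]; linarith

/-- a point of odd order is zero -/
theorem zero_of_odd {D : ℕ} (hD : Odd D) {T : (crv ℚ_[2] D).toAffine.Point} {m : ℕ} (hm : Odd m)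
    (h : m • T = 0) : T = 0 := by
  refine grp8 hm h (odd_big (si_crv D) norm_two' (by norm_num : (1 : ℝ) < 4) (eight hD T) hm ?_)
  rw [smul_comm m 2, smul_comm m 2, smul_comm m 2, h, smul_zero, smul_zero, smul_zero]

end dup

end Pool.Agent.H438.QT
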