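import Pool.Agent.H438.QT.Rat

/-!
# The rational points of the twists of `X_0(49)` of rank zero
-/

set_option autoImplicit false
set_option linter.all false

open IsDedekindDomain NumberField WeierstrassCurve MvPolynomial Filter Topology

namespace Pool.Agent.H438.QT

open Pool.Agent.TH954 Pool.Agent.R419.ST

open scoped Classical

section group

lemma two_prim {G : Type} [AddCommGroup G] [Finite G] (Q : G → Prop)
    (ha : ∀ T : G, 2 • T = 0 → T = 0 ∨ Q T) (hb : ∀ T : G, ¬ Q (2 • T))
    (hc : ∀ (T : G) (m : ℕ), Odd m → m • T = 0 → T = 0) (T : G) : T = 0 ∨ Q T := by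
  have key : ∀ (a : ℕ) (T : G), 2 ^ a • T = 0 → T = 0 ∨ Q T := by
    intro a
    induction a with
    | zero => intro T h; left; simpa using h
    | succ a ih =>
      intro T h
      rw [pow_succ, mul_smul] at h
      rcases ih _ h with h1 | h1
      · exact ha T h1
      · exact absurd h1 (hb T)
  have h0 : addOrderOf T ≠ 0 := (addOrderOf_pos T).ne'
  obtain ⟨a, m, hm, h⟩ := Nat.exists_eq_two_pow_mul_odd h0
  refine key a T (hc _ m hm ?_)
  rw [← mul_smul, mul_comm, ← h]
  exact addOrderOf_nsmul_eq_zero T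

end group

section

variable {F : Type} [Field F] {D : ℕ}

lemma short_q (F : Type) [Field F] (D : ℕ) : Short (crv F D) := ⟨rfl, rfl, rfl⟩

lemma eqn_q {x y : F} (n : (crv F D).toAffine.Nonsingular x y) :
    y ^ 2 = x ^ 3 + (-2835 * (D : F) ^ 2) * x + (-71442 * (D : F) ^ 3) := (short_q F D).eqn n

/-- the points of order two -/
lemma two_q (h2 : (2 : F) ≠ 0) (h9 : (9 : F) ≠ 0) (h7 : ∀ r : F, r ^ 2 ≠ -7) (hD : (D : F) ≠ 0)
    (T : (crv F D).toAffine.Point) (h : 2 • T = 0) :
    T = 0 ∨ crd T = ![63 * (D : F), 0, 1] := by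
  match T, h with
  | .zero, _ => exact Or.inl rfl
  | .some x y n, h =>
    right
    have h1 : (Affine.Point.some x y n : (crv F D).toAffine.Point) = - Affine.Point.some x y n := by
      rw [two_nsmul] at h
      exact eq_neg_of_add_eq_zero_left h
    rw [(short_q F D).neg_some, Affine.Point.some.injEq] at h1
    have hy : y = 0 := by
      have h3 : 2 * y = 0 := by linear_combination h1.2
      exact (mul_eq_zero.1 h3).resolve_left h2
    have heq := eqn_q n
    rw [hy] at heq
    have h2 : (x - 63 * D) * (x ^ 2 + 63 * D * x + 1134 * (D : F) ^ 2) = 0 := by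
      linear_combination -heq
    have h3 : x ^ 2 + 63 * D * x + 1134 * (D : F) ^ 2 ≠ 0 := by
      intro h3
      refine h7 ((2 * x + 63 * D) / (9 * D)) ?_
      rw [div_pow, div_eq_iff (pow_ne_zero _ (mul_ne_zero h9 hD))]
      linear_combination 4 * h3
    have h4 : x = 63 * D := by
      have := (mul_eq_zero.1 h2).resolve_right h3
      linear_combination this
    have e : crd (Affine.Point.some x y n : (crv F D).toAffine.Point) = ![x, y, 1] := by
      funext j
      fin_cases j <;> simp [crd]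
    rw [e, h4, hy]

/-- the point of order two is not divisible by two -/
lemma half_q (h2 : (2 : F) ≠ 0) (h36 : (36 : F) ≠ 0) (h7 : ∀ r : F, r ^ 2 ≠ 7) (hD : (D : F) ≠ 0)
    (T : (crv F D).toAffine.Point) :
    ¬ crd (2 • T) = ![63 * (D : F), 0, 1] := by
  intro h
  match T, h with
  | .zero, h =>
    have z : (2 • Affine.Point.zero : (crv F D).toAffine.Point) = Affine.Point.zero :=
      nsmul_zero (M := (crv F D).toAffine.Point) 2
    rw [z] at h
    have h1 := congrFun h 2
    simp [crd] at h1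
  | .some x y n, h =>
    generalize hT : (2 • Affine.Point.some x y n : (crv F D).toAffine.Point) = T' at h
    match T', hT, h with
    | .zero, _, h =>
      have h1 := congrFun h 2
      simp [crd] at h1
    | .some X Y n', hT, h =>
      have h0 := congrFun h 0
      have hX : X = 63 * D := by simpa [crd] using h0
      rw [two_nsmul] at hT
      obtain ⟨-, hy0, hX'⟩ := (short_q F D).add_eq hT
      have heq := eqn_q n
      have e4 : (crv F D).a₄ = -2835 * (D : F) ^ 2 := rfl
      rw [e4, hX, div_pow, eq_sub_iff_add_eq,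
        eq_div_iff (pow_ne_zero _ (mul_ne_zero h2 hy0))] at hX'
      have h3 : (x ^ 2 - 126 * D * x - 5103 * (D : F) ^ 2) ^ 2 = 0 := by
        linear_combination -hX' + 4 * (63 * D + 2 * x) * heq
      have h3 : x ^ 2 - 126 * D * x - 5103 * (D : F) ^ 2 = 0 := by
        exact pow_eq_zero_iff (two_ne_zero) |>.1 h3
      refine h7 ((x - 63 * D) / (36 * D)) ?_
      rw [div_pow, div_eq_iff (pow_ne_zero _ (mul_ne_zero h36 hD))]
      linear_combination h3

/-- a point of odd order -/
lemma odd_q (g : F →+* ℚ_[2]) (hD : Odd D) (T : (crv F D).toAffine.Point) (m : ℕ) (hm : Odd m)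
    (h : m • T = 0) : T = 0 := by
  obtain ⟨φ, hφ⟩ := Pool.Agent.R425.D.transport g (crv F D) (crv ℚ_[2] D) (map_crv _ D)
  have hinj : Function.Injective φ := by
    intro P Q hPQ
    refine Pool.Agent.R425.D.crd_inj fun j => g.injective ?_
    rw [← hφ, ← hφ, hPQ]
  apply hinj
  rw [map_zero]
  refine zero_of_odd hD hm ?_
  rw [← map_nsmul, h, map_zero]

/-- **The rational points.** -/
theorem points_gen (g : F →+* ℚ_[2]) (h2 : (2 : F) ≠ 0) (h9 : (9 : F) ≠ 0) (h36 : (36 : F) ≠ 0)
    (h7 : ∀ r : F, r ^ 2 ≠ -7) (h7' : ∀ r : F, r ^ 2 ≠ 7) (hD0 : (D : F) ≠ 0) (hD : Odd D)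
    (hfin : Finite (crv F D).toAffine.Point) (T : (crv F D).toAffine.Point) :
    crd T = ![0, 1, 0] ∨ crd T = ![63 * (D : F), 0, 1] := by
  rcases two_prim (fun T => crd T = ![63 * (D : F), 0, 1]) (two_q h2 h9 h7 hD0)
    (half_q h2 h36 h7' hD0) (odd_q g hD) T with h | h
  · left
    rw [h]
    have e : (0 : (crv F D).toAffine.Point) = Affine.Point.zero := rfl
    rw [e]
    funext j
    fin_cases j <;> simp [crd]
  · exact Or.inr h

theorem points_q (hD : Odd D) (hfin : Finite (crv ℚ D).toAffine.Point)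
    (T : (crv ℚ D).toAffine.Point) :
    crd T = ![0, 1, 0] ∨ crd T = ![63 * (D : ℚ), 0, 1] := by
  refine points_gen (algebraMap ℚ ℚ_[2]) (by norm_num) (by norm_num) (by norm_num) (fun r h => ?_)
    (fun r h => ?_) (by exact_mod_cast hD.pos.ne') hD hfin T
  · nlinarith [sq_nonneg r]
  · have h5 : IsSquare ((7 : ℕ) : ℚ) := ⟨r, by push_cast; linear_combination -h⟩
    rw [Rat.isSquare_natCast_iff] at h5
    obtain ⟨m, hm⟩ := h5
    have : m < 3 := by nlinarith
    interval_cases m <;> omega

/-- both points exist -/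
theorem ex_q (hD : D ≠ 0) : ∃ T : (crv ℚ D).toAffine.Point, crd T = ![63 * (D : ℚ), 0, 1] := by
  have hn : (crv ℚ D).toAffine.Nonsingular (63 * D) 0 := by
    refine Pool.Agent.Y700.nonsing (disc_q hD) ?_
    rw [Affine.equation_iff]
    show (0 : ℚ) ^ 2 + 0 * (63 * D) * 0 + 0 * 0 =
      (63 * (D : ℚ)) ^ 3 + 0 * (63 * D) ^ 2 + (-2835 * (D : ℚ) ^ 2) * (63 * D) + (-71442 * (D : ℚ) ^ 3)
    ring
  refine ⟨.some _ _ hn, ?_⟩
  funext j
  fin_cases j <;> simp [crd]

end

end Pool.Agent.H438.QT
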