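import Pool.Agent.H438.CT.Sec
import Pool.Agent.H438.QT.Tor

/-!
# Two-power descent for sections
-/

set_option autoImplicit false
set_option linter.all false

open IsDedekindDomain NumberField WeierstrassCurve MvPolynomial

namespace Pool.Agent.H438.QT

open Pool.Agent.TH954 Pool.Agent.TH942 Pool.Agent.W620.SC Pool.Agent.H438.CT
open Pool.Agent.R425.D (crd_incl' onX_hom)

open scoped Classical

section main

variable {K : Type} [Field K] [NumberField K] {F Ω M B : Type} [Field F] [Field Ω] [Field M]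
  [Field B] [Algebra K F] [Algebra F Ω] [Algebra K Ω] [IsScalarTower K F Ω] [Algebra F M]
  [Algebra K M] [IsScalarTower K F M] [Algebra K B] [IsAlgClosure F Ω] [IsAlgClosure K B]

/-- the hypotheses on one curve -/
structure Data2 (E : WeierstrassCurve K) (a b c : K) where
  t : Tr E a b c
  disc : 4 * a ^ 3 + 27 * b ^ 2 ≠ 0
  sha : ∀ s : Pool.Agent.TH841.NF.D.Sha E, 2 • s = 0 → s = 0

/-- the points of `E` over the algebraic extension `M` of `F`, fixed by the section -/
theorem one2 {E : WeierstrassCurve K} {a b c : K} (d : Data2 E a b c)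
    (U : Set (ValuationSubring F)) (hU : ∀ O ∈ U, ∀ c : K, algebraMap K F c ∈ O)
    (e : M →ₐ[F] Ω) (he : unramified F Ω U ≤ e.fieldRange)
    (P : (E.baseChange F).toAffine.Point) (A : SAct K M)
    (hAF : ∀ (τ : AlgebraicClosure K ≃ₐ[K] AlgebraicClosure K) (x : F),
      A.s τ (algebraMap F M x) = algebraMap F M x)
    (p : ∀ v : HeightOneSpectrum (𝓞 K), Plc K M (AlgebraicClosure (v.adicCompletion K)))
    (hp : ∀ v, GeoPlc A (p v))
    (q : ∀ w : InfinitePlace K, Plc K M (AlgebraicClosure w.Completion))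
    (hq : ∀ w, GeoPlc A (q w)) (k : ℕ) :
    ∃ (Q : (E.baseChange M).toAffine.Point) (y : (E.baseChange K).toAffine.Point),
      (∀ τ, pt A E τ Q = Q) ∧
      pm E (IsScalarTower.toAlgHom K F M) P = pm E (Algebra.ofId K M) y + 2 ^ k • Q := by
  have hΩ1 : IsAlgClosed Ω := IsAlgClosure.isAlgClosed F
  have hcΩ : CharZero Ω := charZero_of_injective_algebraMap (algebraMap K Ω).injective
  have hcv' : ∀ v : HeightOneSpectrum (𝓞 K), CharZero (AlgebraicClosure (v.adicCompletion K)) :=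
    fun v => by
      have : CharZero (v.adicCompletion K) :=
        charZero_of_injective_algebraMap (algebraMap K (v.adicCompletion K)).injective
      exact charZero_of_injective_algebraMap
        (algebraMap (v.adicCompletion K) (AlgebraicClosure (v.adicCompletion K))).injective
  have hcw' : ∀ w : InfinitePlace K, CharZero (AlgebraicClosure w.Completion) :=
    fun w => by
      have : CharZero w.Completion :=
        charZero_of_injective_algebraMap (algebraMap K w.Completion).injective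
      exact charZero_of_injective_algebraMap
        (algebraMap w.Completion (AlgebraicClosure w.Completion)).injective
  have hpos : 1 ≤ 2 ^ k := Nat.one_le_pow _ _ (by norm_num)
  obtain ⟨R, hR⟩ := div_unram d.t d.disc ((e.restrictScalars K).comp A.j) U hU e he P hpos
  have hPf : ∀ τ, pt A E τ (pm E (IsScalarTower.toAlgHom K F M) P) =
      pm E (IsScalarTower.toAlgHom K F M) P := by
    intro τ
    unfold pt
    rw [pm_pm]
    congr 2
    apply AlgHom.ext
    intro x
    exact hAF τ x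
  obtain ⟨ξ, hξ, hξN, hξj⟩ := exists_coc A E hR hPf
    (fun T hT => tors_mem d.t d.disc (e.restrictScalars K) A.j _ hpos T hT)
  have hloc : ∀ v : HeightOneSpectrum (𝓞 K), TrivialOver E ξ (v.adicCompletion K) := by
    intro v
    obtain ⟨red, hr⟩ := exists_red d.t d.disc (p v)
    refine ⟨(p v).iot A.j, red R, fun σ τ h => ?_⟩
    rw [← hr.pm A.j ((p v).iot A.j) ((p v).iot_spec A.j), hξj, map_sub, red_pt (hp v) hr h]
  have hloc' : ∀ w : InfinitePlace K, TrivialOver E ξ w.Completion := by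
    intro w
    obtain ⟨red, hr⟩ := exists_red d.t d.disc (q w)
    refine ⟨(q w).iot A.j, red R, fun σ τ h => ?_⟩
    rw [← hr.pm A.j ((q w).iot A.j) ((q w).iot_spec A.j), hξj, map_sub, red_pt (hq w) hr h]
  have hshak : ∀ (j : ℕ) (x : Pool.Agent.TH841.NF.D.Sha E), 2 ^ j • x = 0 → x = 0 := by
    intro j
    induction j with
    | zero => intro x hx; rw [pow_zero, one_nsmul] at hx; exact hx
    | succ j ih =>
      intro x hx
      rw [pow_succ, mul_nsmul] at hx
      exact ih x (d.sha _ hx)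
  obtain ⟨R0, y, hy, h0⟩ := coc_two k (hshak k) ξ hξ hξN hloc hloc'
  refine ⟨R - pm E A.j R0, y, fun τ => ?_, ?_⟩
  · rw [map_sub, pt_j]
    have e1 : pt A E τ R = R + pm E A.j (ξ τ) := by rw [hξj]; abel
    have e2 : act E τ R0 = R0 + ξ τ := by rw [h0 τ]; abel
    rw [e1, e2, map_add]
    abel
  · have e3 : 2 ^ k • pm E A.j R0 = pm E (Algebra.ofId K M) y := by
      rw [← map_nsmul, ← hy]
      unfold incl
      rw [pm_pm]
      congr 2
      exact Subsingleton.elim _ _
    rw [smul_sub, hR, e3]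
    abel

lemma geo_of [Algebra.IsAlgebraic F M] (s : GalSection K F M B) {L : Type} [Field L] [Algebra K L]
    {p : Plc K M (AlgebraicClosure L)} (hp : s.GivenBy L p) : GeoPlc (toSAct s) p := by
  intro σ τ hστ x
  refine hp σ ((eqv K B).autCongr τ) ?_ x _ ⟨x.2, rfl⟩
  intro z c hc
  obtain ⟨y, rfl⟩ := (eqv K B).surjective z
  have e1 : p.val ((toSAct s).j y) (p.iot (toSAct s).j y) := Plc.val_j _ y
  have e2 : p.val ((toSAct s).j (τ y)) (p.iot (toSAct s).j (τ y)) := Plc.val_j _ (τ y)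
  have e3 : s.j ((eqv K B).autCongr τ (eqv K B y)) = (toSAct s).j (τ y) := by
    change s.j (eqv K B (τ ((eqv K B).symm (eqv K B y)))) = _
    rw [AlgEquiv.symm_apply_apply]
    rfl
  have e4 : p.iot (toSAct s).j y = c := e1.unique hc
  rw [e3, ← e4, ← hστ y]
  exact e2

/-- the local point -/
lemma loc_pt {n : ℕ} (E : Fin n → WeierstrassCurve K) (a b c : Fin n → K)
    (d : ∀ i, Data2 (E i) (a i) (b i) (c i))
    (S : Set (MvPolynomial (Fin n × Fin 3) K)) (hS : ∀ f ∈ S, ∃ d, MultiHom d f)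
    (P : (i : Fin n) → ((E i).baseChange F).toAffine.Point)
    (hPS : OnX S (fun i => crd (P i))) (A : SAct K M)
    (hAF : ∀ (τ : AlgebraicClosure K ≃ₐ[K] AlgebraicClosure K) (x : F),
      A.s τ (algebraMap F M x) = algebraMap F M x)
    {L : Type} [Field L] [CharZero L] [Algebra K L] {p : Plc K M (AlgebraicClosure L)}
    (hpl : GeoPlc A p) (y₀ : (i : Fin n) → ((E i).baseChange K).toAffine.Point)
    (key : ∀ i (k : ℕ), ∃ Q : ((E i).baseChange M).toAffine.Point,
      (∀ τ, pt A (E i) τ Q = Q) ∧ pm (E i) (IsScalarTower.toAlgHom K F M) (P i) =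
        pm (E i) (Algebra.ofId K M) (y₀ i) + 2 ^ k • Q) :
    ∃ Pv : (i : Fin n) → ((E i).baseChange L).toAffine.Point,
        OnX S (fun i => crd (Pv i)) ∧
        (∀ i, p.Spec (fun j => algebraMap F M (crd (P i) j))
          (fun j => algebraMap L (AlgebraicClosure L) (crd (Pv i) j))) ∧
        ∀ i (k : ℕ), ∃ z, Pv i = pm (E i) (Algebra.ofId K L) (y₀ i) + 2 ^ k • z := by
  have : CharZero (AlgebraicClosure L) :=
    charZero_of_injective_algebraMap (algebraMap L (AlgebraicClosure L)).injective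
  set P' : (i : Fin n) → ((E i).baseChange M).toAffine.Point :=
    fun i => pm (E i) (IsScalarTower.toAlgHom K F M) (P i) with hP'
  have hP'S : OnX S (fun i => crd (P' i)) := onX_hom _ hPS
  have hP'f : ∀ i τ, pt A (E i) τ (P' i) = P' i := by
    intro i τ
    change pm (E i) _ (pm (E i) _ (P i)) = pm (E i) _ (P i)
    rw [pm_pm]
    congr 2
    apply AlgHom.ext
    intro x
    exact hAF τ x
  choose red hr using fun i => exists_red (d i).t (d i).disc p
  choose Pv hPv using fun i => red_fixed hpl (hr i) (hP'f i)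
  have hcr : ∀ i, ∃ u : M, u ≠ 0 ∧ ∀ j, ∃ h : u * crd (P' i) j ∈ p.W,
      p.ρ ⟨u * crd (P' i) j, h⟩ = crd (red i (P' i)) j := fun i => (hr i).crd (P' i)
  have hcPv : ∀ i j, crd (red i (P' i)) j =
      algebraMap L (AlgebraicClosure L) (crd (Pv i) j) := by
    intro i j
    rw [← hPv i]
    exact crd_incl' _ _
  refine ⟨Pv, ?_, fun i => ?_, fun i k => ?_⟩
  · have h3 : OnX S (fun i => crd (red i (P' i))) := onX_red p hS hcr hP'S
    intro f hf
    have h4 := h3 f hf
    have h7 := aeval_algebraMap_apply (AlgebraicClosure L)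
      (fun p : Fin n × Fin 3 => crd (Pv p.1) p.2) f
    simp only [hcPv] at h4
    have h8 := h7.symm.trans h4
    exact (map_eq_zero _).1 h8
  · obtain ⟨u, hu0, hu⟩ := hcr i
    refine ⟨u, hu0, fun j => ?_⟩
    obtain ⟨h3, h4⟩ := hu j
    have h5 : crd (P' i) j = algebraMap F M (crd (P i) j) := crd_pm _ _ _
    change p.val (u * algebraMap F M (crd (P i) j))
      (algebraMap L (AlgebraicClosure L) (crd (Pv i) j))
    rw [← hcPv i j, ← h4, ← h5]
    exact ⟨h3, rfl⟩
  · obtain ⟨Q, h1, h2⟩ := key i k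
    obtain ⟨z, hz⟩ := red_fixed hpl (hr i) h1
    refine ⟨z, incl_injective ?_⟩
    have e5 : incl (E i) L (pm (E i) (Algebra.ofId K L) (y₀ i) + 2 ^ k • z) =
        incl (E i) L (pm (E i) (Algebra.ofId K L) (y₀ i)) +
        incl (E i) L (2 ^ k • z) := map_add (pm (E i) _) _ _
    rw [e5, incl_nsmul, hz, hPv, ← red_const (hr i)]
    have e6 : P' i = pm (E i) (Algebra.ofId K M) (y₀ i) + 2 ^ k • Q := h2
    rw [e6, map_add, map_nsmul]

/-- **Two-power descent for sections.** -/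
theorem sec_two {n : ℕ} (E : Fin n → WeierstrassCurve K) (a b c : Fin n → K)
    (d : ∀ i, Data2 (E i) (a i) (b i) (c i))
    (hfin : ∀ i, Finite ((E i).baseChange K).toAffine.Point)
    (S : Set (MvPolynomial (Fin n × Fin 3) K)) (hS : ∀ f ∈ S, ∃ d, MultiHom d f)
    (U : Set (ValuationSubring F)) (hU : ∀ O ∈ U, ∀ c : K, algebraMap K F c ∈ O)
    (e : M →ₐ[F] Ω) (he : unramified F Ω U ≤ e.fieldRange)
    (P : (i : Fin n) → ((E i).baseChange F).toAffine.Point)
    (hPS : OnX S (fun i => crd (P i))) (s : GalSection K F M B)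
    (p : ∀ v : HeightOneSpectrum (𝓞 K), Plc K M (AlgebraicClosure (v.adicCompletion K)))
    (hp : ∀ v, s.GivenBy (v.adicCompletion K) (p v))
    (q : ∀ w : InfinitePlace K, Plc K M (AlgebraicClosure w.Completion))
    (hq : ∀ w, s.GivenBy w.Completion (q w)) :
    ∃ y : (i : Fin n) → ((E i).baseChange K).toAffine.Point,
      (∀ i (k : ℕ), ∃ Q : ((E i).baseChange M).toAffine.Point,
        pm (E i) (IsScalarTower.toAlgHom K F M) (P i) =
          pm (E i) (Algebra.ofId K M) (y i) + 2 ^ k • Q ∧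
        ∀ g : B ≃ₐ[K] B, pm (E i) ((s.s g : M →ₐ[F] M).restrictScalars K) Q = Q) ∧
      (∀ v : HeightOneSpectrum (𝓞 K), ∃ Pv : (i : Fin n) →
          ((E i).baseChange (v.adicCompletion K)).toAffine.Point,
        OnX S (fun i => crd (Pv i)) ∧
        (∀ i, (p v).Spec (fun j => algebraMap F M (crd (P i) j))
          (fun j => algebraMap (v.adicCompletion K) (AlgebraicClosure (v.adicCompletion K))
            (crd (Pv i) j))) ∧
        ∀ i (k : ℕ), ∃ z, Pv i = pm (E i) (Algebra.ofId K (v.adicCompletion K)) (y i) +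
          2 ^ k • z) ∧
      ∀ w : InfinitePlace K, ∃ Pv : (i : Fin n) → ((E i).baseChange w.Completion).toAffine.Point,
        OnX S (fun i => crd (Pv i)) ∧
        (∀ i, (q w).Spec (fun j => algebraMap F M (crd (P i) j))
          (fun j => algebraMap w.Completion (AlgebraicClosure w.Completion) (crd (Pv i) j))) ∧
        ∀ i (k : ℕ), ∃ z, Pv i = pm (E i) (Algebra.ofId K w.Completion) (y i) + 2 ^ k • z := by
  have hΩ2 : Algebra.IsAlgebraic F Ω := IsAlgClosure.isAlgebraic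
  have hMalg : Algebra.IsAlgebraic F M := Algebra.IsAlgebraic.of_injective e e.injective
  have hcv : ∀ v : HeightOneSpectrum (𝓞 K), CharZero (v.adicCompletion K) := fun v =>
    charZero_of_injective_algebraMap (algebraMap K (v.adicCompletion K)).injective
  have hcw : ∀ w : InfinitePlace K, CharZero w.Completion := fun w =>
    charZero_of_injective_algebraMap (algebraMap K w.Completion).injective
  set A := toSAct s with hA
  have hpl : ∀ v, GeoPlc A (p v) := fun v => geo_of s (hp v)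
  have hql : ∀ w, GeoPlc A (q w) := fun w => geo_of s (hq w)
  have hAF : ∀ (τ : AlgebraicClosure K ≃ₐ[K] AlgebraicClosure K) (x : F),
      A.s τ (algebraMap F M x) = algebraMap F M x :=
    fun τ x => (s.s ((eqv K B).autCongr τ)).commutes x
  choose Q y hQf hQ using fun (k : ℕ) (i : Fin n) =>
    one2 (d i) U hU e he (P i) A hAF p hpl q hql k
  -- one tuple of rational points for all levels
  have hfin' : ∀ i, Finite ((E i).baseChange K).toAffine.Point := hfin
  obtain ⟨y₀, hy₀⟩ : ∃ y₀, ∀ k, ∃ k' ≥ k, y k' = y₀ := by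
    obtain ⟨y₀, h⟩ := Finite.exists_infinite_fiber y
    refine ⟨y₀, fun k => ?_⟩
    have h2 : (y ⁻¹' {y₀}).Infinite := Set.infinite_coe_iff.1 h
    obtain ⟨k', h3, h4⟩ := h2.exists_gt k
    exact ⟨k', h4.le, h3⟩
  have key : ∀ i (k : ℕ), ∃ Q : ((E i).baseChange M).toAffine.Point,
      (∀ τ, pt A (E i) τ Q = Q) ∧ pm (E i) (IsScalarTower.toAlgHom K F M) (P i) =
        pm (E i) (Algebra.ofId K M) (y₀ i) + 2 ^ k • Q := by
    intro i k
    obtain ⟨k', hk, hyk⟩ := hy₀ k
    refine ⟨2 ^ (k' - k) • Q k' i, fun τ => ?_, ?_⟩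
    · rw [map_nsmul, hQf]
    · rw [← mul_smul, ← pow_add, Nat.add_sub_cancel' hk, ← hyk]
      exact hQ k' i
  refine ⟨y₀, fun i k => ?_, fun v => ?_, fun w => ?_⟩
  · obtain ⟨Q, h1, h2⟩ := key i k
    refine ⟨Q, h2, fun g => ?_⟩
    have h3 : pt A (E i) ((eqv K B).autCongr.symm g) =
        pm (E i) ((s.s g : M →ₐ[F] M).restrictScalars K) := by
      unfold pt
      congr 1
      apply AlgHom.ext
      intro z
      exact toSAct_s s g z
    rw [← h3]
    exact h1 _
  · exact loc_pt E a b c d S hS P hPS A hAF (hpl v) y₀ key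
  · exact loc_pt E a b c d S hS P hPS A hAF (hql w) y₀ key

end main

section rat

/-- the curve as a short curve -/
noncomputable def tr (D : ℕ) :
    Tr (crv ℚ D) (-2835 * (D : ℚ) ^ 2) (-71442 * (D : ℚ) ^ 3) 0 where
  Φ := fun L _ _ => AddEquiv.refl _
  spec := fun L _ _ x y h => by
    have e : y + algebraMap ℚ L 0 = y := by rw [map_zero, add_zero]
    have h' : ((sw (-2835 * (D : ℚ) ^ 2) (-71442 * (D : ℚ) ^ 3)).baseChange
        L).toAffine.Nonsingular x y := h
    refine ⟨by rw [e]; exact h', ?_⟩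
    show (Affine.Point.some x y h' : ((sw (-2835 * (D : ℚ) ^ 2)
      (-71442 * (D : ℚ) ^ 3)).baseChange L).toAffine.Point) = _
    rw [Affine.Point.some.injEq]
    exact ⟨rfl, e.symm⟩

noncomputable def data (D : ℕ) (hD : D ≠ 0)
    (h : ∀ s : Pool.Agent.TH841.NF.D.Sha (crv ℚ D), 2 • s = 0 → s = 0) :
    Data2 (crv ℚ D) (-2835 * (D : ℚ) ^ 2) (-71442 * (D : ℚ) ^ 3) 0 where
  t := tr D
  disc := by
    have e : 4 * (-2835 * (D : ℚ) ^ 2) ^ 3 + 27 * (-71442 * (D : ℚ) ^ 3) ^ 2 =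
        46664771328 * (D : ℚ) ^ 6 := by ring
    rw [e]
    exact mul_ne_zero (by norm_num) (pow_ne_zero _ (by exact_mod_cast hD))
  sha := h

/-- the component at two -/
lemma eq_two {D : ℕ} (hD : Odd D) {v : HeightOneSpectrum (𝓞 ℚ)}
    (hv : ((2 : ℕ) : 𝓞 ℚ) ∈ v.asIdeal)
    {P : ((crv ℚ D).baseChange (v.adicCompletion ℚ)).toAffine.Point}
    {y : ((crv ℚ D).baseChange ℚ).toAffine.Point}
    (h : ∀ k : ℕ, ∃ z, P = pm (crv ℚ D) (Algebra.ofId ℚ (v.adicCompletion ℚ)) y + 2 ^ k • z) :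
    P = pm (crv ℚ D) (Algebra.ofId ℚ (v.adicCompletion ℚ)) y := by
  obtain ⟨g⟩ := place_two hv
  obtain ⟨φ, hφ⟩ := to_two g D
  have h1 : φ (P - pm (crv ℚ D) (Algebra.ofId ℚ (v.adicCompletion ℚ)) y) = 0 := by
    refine zero_of_div hD fun k => ?_
    obtain ⟨z, hz⟩ := h k
    refine ⟨φ z, ?_⟩
    rw [hz, add_sub_cancel_left, map_nsmul]
  have h2 := inj_two hφ (h1.trans (map_zero φ).symm)
  exact sub_eq_zero.1 h2

theorem sec_rat {F Ω M B : Type} [Field F] [Field Ω] [Field M] [Field B] [Algebra ℚ F]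
    [Algebra F Ω] [Algebra ℚ Ω] [IsScalarTower ℚ F Ω] [Algebra F M]
    [Algebra ℚ M] [IsScalarTower ℚ F M] [Algebra ℚ B] [IsAlgClosure F Ω] [IsAlgClosure ℚ B]
    {n : ℕ} {D : Fin n → ℕ} (hD : ∀ i, Odd (D i))
    (hsha : ∀ i, ∀ s : Pool.Agent.TH841.NF.D.Sha (crv ℚ (D i)), 2 • s = 0 → s = 0)
    (hfin : ∀ i, Finite (crv ℚ (D i)).toAffine.Point)
    (S : Set (MvPolynomial (Fin n × Fin 3) ℚ)) (hS : ∀ f ∈ S, ∃ d, MultiHom d f)
    (U : Set (ValuationSubring F)) (hU : ∀ O ∈ U, ∀ c : ℚ, algebraMap ℚ F c ∈ O)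
    (e : M →ₐ[F] Ω) (he : unramified F Ω U ≤ e.fieldRange)
    (P : (i : Fin n) → ((crv ℚ (D i)).baseChange F).toAffine.Point)
    (hPS : OnX S (fun i => crd (P i))) (s : GalSection ℚ F M B)
    (p : ∀ v : HeightOneSpectrum (𝓞 ℚ), Plc ℚ M (AlgebraicClosure (v.adicCompletion ℚ)))
    (hp : ∀ v, s.GivenBy (v.adicCompletion ℚ) (p v))
    (q : ∀ w : InfinitePlace ℚ, Plc ℚ M (AlgebraicClosure w.Completion))
    (hq : ∀ w, s.GivenBy w.Completion (q w)) :
    ∃ y : (i : Fin n) → ((crv ℚ (D i)).baseChange ℚ).toAffine.Point,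
      (∀ i, crd (y i) = ![0, 1, 0] ∨ crd (y i) = ![63 * (D i : ℚ), 0, 1]) ∧
      OnX S (fun i => crd (y i)) ∧
      (∀ i (k : ℕ), ∃ Q : ((crv ℚ (D i)).baseChange M).toAffine.Point,
        pm (crv ℚ (D i)) (IsScalarTower.toAlgHom ℚ F M) (P i) =
          pm (crv ℚ (D i)) (Algebra.ofId ℚ M) (y i) + 2 ^ k • Q ∧
        ∀ g : B ≃ₐ[ℚ] B, pm (crv ℚ (D i)) ((s.s g : M →ₐ[F] M).restrictScalars ℚ) Q = Q) ∧
      (∀ v : HeightOneSpectrum (𝓞 ℚ), ∃ Pv : (i : Fin n) →
          ((crv ℚ (D i)).baseChange (v.adicCompletion ℚ)).toAffine.Point,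
        (OnX S (fun i => crd (Pv i)) ∧
        (∀ i, (p v).Spec (fun j => algebraMap F M (crd (P i) j))
          (fun j => algebraMap (v.adicCompletion ℚ) (AlgebraicClosure (v.adicCompletion ℚ))
            (crd (Pv i) j))) ∧
        ∀ i (k : ℕ), ∃ z, Pv i = pm (crv ℚ (D i)) (Algebra.ofId ℚ (v.adicCompletion ℚ)) (y i) +
          2 ^ k • z) ∧
        (((2 : ℕ) : 𝓞 ℚ) ∈ v.asIdeal →
          Pv = fun i => pm (crv ℚ (D i)) (Algebra.ofId ℚ (v.adicCompletion ℚ)) (y i))) ∧
      ∀ w : InfinitePlace ℚ, ∃ Pv : (i : Fin n) →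
          ((crv ℚ (D i)).baseChange w.Completion).toAffine.Point,
        OnX S (fun i => crd (Pv i)) ∧
        (∀ i, (q w).Spec (fun j => algebraMap F M (crd (P i) j))
          (fun j => algebraMap w.Completion (AlgebraicClosure w.Completion) (crd (Pv i) j))) ∧
        ∀ i (k : ℕ), ∃ z, Pv i = pm (crv ℚ (D i)) (Algebra.ofId ℚ w.Completion) (y i) +
          2 ^ k • z := by
  have hf : ∀ i, Finite ((crv ℚ (D i)).baseChange ℚ).toAffine.Point := hfin
  obtain ⟨y, h1, h2, h3⟩ := sec_two (fun i => crv ℚ (D i)) _ _ _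
    (fun i => data (D i) (hD i).pos.ne' (hsha i)) hf S hS U hU e he P hPS s p hp q hq
  have h5 : ∀ v : HeightOneSpectrum (𝓞 ℚ), ∃ Pv : (i : Fin n) →
          ((crv ℚ (D i)).baseChange (v.adicCompletion ℚ)).toAffine.Point,
        (OnX S (fun i => crd (Pv i)) ∧
        (∀ i, (p v).Spec (fun j => algebraMap F M (crd (P i) j))
          (fun j => algebraMap (v.adicCompletion ℚ) (AlgebraicClosure (v.adicCompletion ℚ))
            (crd (Pv i) j))) ∧
        ∀ i (k : ℕ), ∃ z, Pv i = pm (crv ℚ (D i)) (Algebra.ofId ℚ (v.adicCompletion ℚ)) (y i) +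
          2 ^ k • z) ∧
        (((2 : ℕ) : 𝓞 ℚ) ∈ v.asIdeal →
          Pv = fun i => pm (crv ℚ (D i)) (Algebra.ofId ℚ (v.adicCompletion ℚ)) (y i)) := by
    intro v
    obtain ⟨Q, a1, a2, a3⟩ := h2 v
    refine ⟨Q, ⟨a1, a2, a3⟩, fun hv => funext fun i => ?_⟩
    exact eq_two (D := D i) (v := v) (P := Q i) (y := y i) (hD i) hv (a3 i)
  refine ⟨y, fun i => points_q (hD i) (hfin i) (y i), ?_, h1, h5, h3⟩
  obtain ⟨v, hv⟩ := Pool.Agent.R425.D.exists_two ℚ
  obtain ⟨Q, ⟨b1, -, -⟩, b2⟩ := h5 v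
  have b3 := b2 hv
  subst b3
  exact onX_pm (v := v) b1

end rat

end Pool.Agent.H438.QT
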